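import Pool.Agent.Helper50.KP.GoalsF

/-!
# Project KP (MP_5a63b6_lc), packet HKF: the effect of a hook
-/

set_option autoImplicit false

namespace Pool.Agent.Helper32.KP

open Pool.Agent.Helper50.KP

variable {G : Type} [Group G]

lemma cj_cj (g h : G) (b : G × G) : cj g (cj h b) = cj (g * h) b := by
  unfold cj
  ext
  · simp only []
    group
  · simp only []
    group

lemma cj_comp (g h : G) : cj g ∘ cj h = cj (g * h) := by
  funext b
  exact cj_cj g h b

lemma runD (k : ℕ) (B₁ A B : List (G × G)) (t : G) (Q : Prog) (h : B₁.length = k) :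
    run (List.replicate k (Ins.D true) ++ Q) A t (B₁ ++ B) =
      run Q ((B₁.map (cj t)).reverse ++ A) t B := by
  subst h
  induction B₁ generalizing A with
  | nil => rfl
  | cons b B₁ ih =>
    rw [List.length_cons, List.replicate_succ, List.cons_append, List.cons_append]
    show run (List.replicate B₁.length (Ins.D true) ++ Q) (cj t b :: A) t (B₁ ++ B) = _
    rw [ih, List.map_cons, List.reverse_cons, List.append_assoc]
    rfl

lemma runU (k : ℕ) (A₁ A B : List (G × G)) (t : G) (Q : Prog) (h : A₁.length = k) :
    run (List.replicate k (Ins.U true) ++ Q) (A₁ ++ A) t B =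
      run Q A t ((A₁.map (cj t⁻¹)).reverse ++ B) := by
  subst h
  induction A₁ generalizing B with
  | nil => rfl
  | cons b A₁ ih =>
    rw [List.length_cons, List.replicate_succ, List.cons_append, List.cons_append]
    show run (List.replicate A₁.length (Ins.U true) ++ Q) (A₁ ++ A) t (cj t⁻¹ b :: B) = _
    rw [ih, List.map_cons, List.reverse_cons, List.append_assoc]
    rfl

lemma sDf (P : Prog) (A B : List (G × G)) (t : G) (b : G × G) :
    run (.D false :: P) A t (b :: B) = run P (b :: A) ((vl b)⁻¹ * t * vl b) B := rfl

lemma sDt (P : Prog) (A B : List (G × G)) (t : G) (b : G × G) :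
    run (.D true :: P) A t (b :: B) = run P (cj t b :: A) t B := rfl

lemma sUf (P : Prog) (A B : List (G × G)) (t : G) (b : G × G) :
    run (.U false :: P) (b :: A) t B = run P A (vl b * t * (vl b)⁻¹) (b :: B) := rfl

lemma sUt (P : Prog) (A B : List (G × G)) (t : G) (b : G × G) :
    run (.U true :: P) (b :: A) t B = run P A t (cj t⁻¹ b :: B) := rfl

/-- **HKF**. -/
theorem gHKF : HKF := by
  intro G _ k m B₁ B₂ B₃ x y t t₁ t₂ t₃ t₄ hk hm h1 h2 h3 h4
  have e : hook k m = List.replicate k (.D true) ++ (.D false :: (List.replicate m (.D true) ++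
      (.D false :: .U true :: (List.replicate m (.U true) ++ (.U false :: .D true ::
      (List.replicate m (.D true) ++ (.D true :: .U false :: (List.replicate m (.U true) ++
      (.U true :: (List.replicate k (.U true) ++ [])))))))))) := by
    unfold hook
    simp only [List.append_assoc, List.cons_append, List.nil_append, List.append_nil]
  rw [e, runD k B₁ _ _ _ _ hk, sDf, ← h1, runD m B₂ _ _ _ _ hm, sDf, ← h2, sUt,
    runU m _ _ _ _ _ (by rw [List.length_reverse, List.length_map, hm]),
    List.map_reverse, List.reverse_reverse, List.map_map, cj_comp, sUf, ← h3, sDt,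
    runD m _ _ _ _ _ (by rw [List.length_map, hm]), sDt, cj_cj, sUf, ← h4,
    runU m _ _ _ _ _ (by rw [List.length_reverse, List.length_map, List.length_map, hm]), sUt,
    cj_cj]
  rw [runU k _ _ _ _ _ (by rw [List.length_reverse, List.length_map, hk]), List.map_reverse,
    List.reverse_reverse, List.map_map, cj_comp, List.map_reverse, List.reverse_reverse,
    List.map_map, List.map_map, cj_comp, cj_comp, ← mul_assoc]
  rfl

end Pool.Agent.Helper32.KP
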